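import Pool.Agent.Helper69.BQ.St.S2

/-!
# Project BQ, piece S7: the upper bound
-/

namespace Pool.Agent.Helper35.BQ

open Pool.Agent.Helper69.BQ
open Module NumberField Pool.Agent.Helper25.Biq Cert

lemma dot_zero_mask (N : ℕ) (x : ℕ → ZMod 2) : dot N x 0 = 0 := by
  simp [dot, bitz]

/-- The value of the two functionals on the selected rows. -/
lemma dot_urow (c : Cert) (X : List ℕ) (j : ℕ) (N : ℕ) (x y : ℕ → ZMod 2) (m : ℕ) :
    dot N x (urow c X j m).1 + dot N y (urow c X j m).2 =
      ∑ k ∈ Finset.range m, bitz (gt X k) j *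
        (dot N x (xorSel c.psi (gt c.L1 k)) + dot N y (xorSel c.psi (gt c.L2 k))) := by
  induction m with
  | zero => simp [urow, dot_zero_mask]
  | succ k ih =>
    rw [Finset.sum_range_succ, ← ih]
    by_cases hb : (gt X k).testBit j = true
    · have h1 : urow c X j (k + 1) = ((urow c X j k).1 ^^^ xorSel c.psi (gt c.L1 k),
          (urow c X j k).2 ^^^ xorSel c.psi (gt c.L2 k)) := by
        rw [urow, if_pos hb]
      rw [h1, dot_xor, dot_xor, bitz, if_pos hb]
      ring
    · have h1 : urow c X j (k + 1) = urow c X j k := by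
        rw [urow, if_neg hb]
      rw [h1, bitz, if_neg hb]
      ring

/-- The left inverse applied to the values of the functionals. -/
lemma matR_mulVec_psiF {c : Cert} (hlen : c.psi.length = c.n) (L : List ℕ) (a : ℚ)
    (k : Fin c.m) :
    (matR c.m c.n L).mulVec (psiF c a) k = dot c.N (co c.ps a) (xorSel c.psi (gt L k)) := by
  rw [dot_xorSel, hlen, Finset.sum_range]
  rfl

/-- One of the two halves of the upper bound. -/
lemma half {c : Cert} (hlen : c.psi.length = c.n) (X : List ℕ) {c1 c2 : ℚ} (j : Fin c.n) :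
    ((mat c.m c.n X).mulVec ((matR c.m c.n c.L1).mulVec (psiF c c1) +
      (matR c.m c.n c.L2).mulVec (psiF c c2))) j =
      dot c.N (co c.ps c1) (urow c X j c.m).1 + dot c.N (co c.ps c2) (urow c X j c.m).2 := by
  rw [dot_urow, Finset.sum_range]
  show ∑ k : Fin c.m, mat c.m c.n X j k * ((matR c.m c.n c.L1).mulVec (psiF c c1) +
      (matR c.m c.n c.L2).mulVec (psiF c c2)) k = _
  refine Finset.sum_congr rfl fun k _ => ?_
  have h1 := matR_mulVec_psiF hlen c.L1 c1 k
  have h2 := matR_mulVec_psiF hlen c.L2 c2 k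
  rw [Pi.add_apply, h1, h2]
  rfl

lemma z2_eq {a b : ZMod 2} (h : a + b = 0) : a = b := by
  revert a b
  decide

/-- S7 (from S3, M2, M3). The upper bound. -/
theorem upper {c : Cert} (h1 : c.ok1 = true) (h2 : c.ok2 = true) (h3 : c.ok3 = true)
    (h6 : c.ok6 = true) (h7 : c.ok7 = true) {c1 c2 c3 : ℚ}
    (ht : Trip c.g12 c.g13 c.g23 c1 c2 c3) :
    (mat c.m c.n c.A).mulVec ((matR c.m c.n c.L1).mulVec (psiF c c1) +
      (matR c.m c.n c.L2).mulVec (psiF c c2)) = psiF c c1 ∧
    (mat c.m c.n c.B).mulVec ((matR c.m c.n c.L1).mulVec (psiF c c1) +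
      (matR c.m c.n c.L2).mulVec (psiF c c2)) = psiF c c2 := by
  obtain ⟨-, -, hk⟩ := trip_consP h1 h2 ht
  have hkp : c.kp = c.consP := by
    simp only [ok3, Bool.and_eq_true, decide_eq_true_eq] at h3
    exact h3.2
  have hlen : c.psi.length = c.n := by
    simp only [ok7, Bool.and_eq_true, decide_eq_true_eq] at h7
    exact h7.1.1
  rw [← hkp] at hk
  simp only [ok6, List.all_eq_true, List.mem_range, Bool.and_eq_true, decide_eq_true_eq] at h6
  constructor
  · funext j
    rw [half hlen]
    obtain ⟨hA, -⟩ := h6 j j.2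
    have h := dot_xorSel2 c.N (co c.ps c1) (co c.ps c2) c.kp (gt c.TA j) hk
    rw [← hA] at h
    simp only [dot_xor] at h
    apply z2_eq
    rw [← h]
    simp only [psiF]
    ring
  · funext j
    rw [half hlen]
    obtain ⟨-, hB⟩ := h6 j j.2
    have h := dot_xorSel2 c.N (co c.ps c1) (co c.ps c2) c.kp (gt c.TB j) hk
    rw [← hB] at h
    simp only [dot_xor] at h
    apply z2_eq
    rw [← h]
    simp only [psiF]
    ring

end Pool.Agent.Helper35.BQ
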